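import Pool.Agent.H77.PUC.StmtsE

universe u

namespace PUC

open Polynomial Filter Topology Metric

theorem EVA_reg_iff {K : Type u} [Field K] (a : K) (h : RatFunc K) :
    reg a h ↔ Polynomial.eval₂ (RingHom.id K) a h.denom ≠ 0 := by
  unfold reg
  rw [Polynomial.eval₂_id]

theorem EVA_dvd {K : Type u} [Field K] {a : K} {P Q : K[X]} (h : P ∣ Q) (hQ : Q.eval a ≠ 0) :
    P.eval a ≠ 0 := by
  obtain ⟨R, rfl⟩ := h
  intro h0
  apply hQ
  rw [Polynomial.eval_mul, h0, zero_mul]

theorem EVA_add {K : Type u} [Field K] {a : K} {h h' : RatFunc K} (r : reg a h) (r' : reg a h') :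
    reg a (h + h') ∧ ev a (h + h') = ev a h + ev a h' := by
  refine ⟨?_, ?_⟩
  · refine EVA_dvd (RatFunc.denom_add_dvd h h') ?_
    rw [Polynomial.eval_mul]
    exact mul_ne_zero r r'
  · exact RatFunc.eval_add (RingHom.id K) a ((EVA_reg_iff a h).1 r) ((EVA_reg_iff a h').1 r')

theorem EVA_mul {K : Type u} [Field K] {a : K} {h h' : RatFunc K} (r : reg a h) (r' : reg a h') :
    reg a (h * h') ∧ ev a (h * h') = ev a h * ev a h' := by
  refine ⟨?_, ?_⟩
  · refine EVA_dvd (RatFunc.denom_mul_dvd h h') ?_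
    rw [Polynomial.eval_mul]
    exact mul_ne_zero r r'
  · exact RatFunc.eval_mul (RingHom.id K) a ((EVA_reg_iff a h).1 r) ((EVA_reg_iff a h').1 r')

theorem EVA_poly {K : Type u} [Field K] (a : K) (Q : K[X]) :
    reg a (algebraMap K[X] (RatFunc K) Q) ∧ ev a (algebraMap K[X] (RatFunc K) Q) = Q.eval a := by
  refine ⟨?_, ?_⟩
  · unfold reg
    rw [RatFunc.denom_algebraMap]
    simp
  · unfold ev
    rw [RatFunc.eval_algebraMap]
    simp

theorem EVA_neg {K : Type u} [Field K] {a : K} {h : RatFunc K} (r : reg a h) :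
    reg a (-h) ∧ ev a (-h) = - ev a h := by
  have e : -h = algebraMap K[X] (RatFunc K) (-1) * h := by simp
  obtain ⟨h1, h2⟩ := EVA_poly a (-1 : K[X])
  obtain ⟨h3, h4⟩ := EVA_mul h1 r
  rw [e]
  refine ⟨h3, ?_⟩
  rw [h4, h2]
  simp

theorem EVA_ev {K : Type u} [Field K] (a : K) (h : RatFunc K) :
    ev a h = h.num.eval a / h.denom.eval a := by
  unfold ev
  rw [RatFunc.eval]
  simp [Polynomial.eval₂_id]

theorem sEva : SEva.{u} := by
  intro K _ a h h'
  refine ⟨?_, ?_, ?_⟩
  · intro r r'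
    obtain ⟨h1, h2⟩ := EVA_add r r'
    obtain ⟨h3, h4⟩ := EVA_mul r r'
    obtain ⟨n1, n2⟩ := EVA_neg r'
    obtain ⟨h5, h6⟩ := EVA_add r n1
    rw [← sub_eq_add_neg] at h5 h6
    refine ⟨h1, h2, h5, ?_, h3, h4⟩
    rw [h6, n2, sub_eq_add_neg]
  · intro r hne
    have hn : h.num.eval a ≠ 0 := by
      intro h0
      apply hne
      rw [EVA_ev, h0, zero_div]
    have hh : h ≠ 0 := by
      rintro rfl
      apply hn
      simp
    have hr : reg a h⁻¹ := by
      have e : h⁻¹ = algebraMap K[X] (RatFunc K) h.denom / algebraMap K[X] (RatFunc K) h.num := by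
        conv_lhs => rw [← RatFunc.num_div_denom h]
        rw [inv_div]
      have hd : (h⁻¹).denom ∣ h.num := by
        rw [e]
        exact RatFunc.denom_div_dvd _ _
      exact EVA_dvd hd hn
    refine ⟨hr, ?_⟩
    obtain ⟨-, h4⟩ := EVA_mul r hr
    rw [mul_inv_cancel₀ hh] at h4
    have h1 : ev a (1 : RatFunc K) = 1 := by
      have := (EVA_poly a (1 : K[X])).2
      simpa using this
    rw [h1] at h4
    exact eq_inv_of_mul_eq_one_right h4.symm
  · intro Q
    exact EVA_poly a Q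

end PUC
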